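import Pool.Agent.AS.Main

set_option autoImplicit false

/-!
# The largest prime factor of a solution of `a(n) = σ(n)` is determined by the rest
-/

namespace Pool.Agent.SPC

open ArithmeticFunction Finset Pool.Agent.AS

/-- the equation -/
def EQ (n : ℕ) : Prop := FF n + sigma 1 n = 2 * (n * n.divisors.card)

lemma cross_le {P Q e j : ℕ} (h : P < Q) (hj : j ≤ e) : Q ^ j * P ^ e ≤ P ^ j * Q ^ e := by
  obtain ⟨k, rfl⟩ := Nat.exists_eq_add_of_le hj
  have : P ^ k ≤ Q ^ k := Nat.pow_le_pow_left h.le k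
  calc Q ^ j * P ^ (j + k) = P ^ j * Q ^ j * P ^ k := by rw [pow_add]; ring
    _ ≤ P ^ j * Q ^ j * Q ^ k := Nat.mul_le_mul_left _ this
    _ = P ^ j * Q ^ (j + k) := by rw [pow_add]; ring

lemma TT_cross {P Q e : ℕ} (h : P < Q) (he : 1 ≤ e) : TT Q (e + 1) * P ^ e < TT P (e + 1) * Q ^ e := by
  unfold TT
  rw [Finset.sum_mul, Finset.sum_mul]
  apply Finset.sum_lt_sum
  · intro j hj
    have hj' : j ≤ e := by have := Finset.mem_range.1 hj; omega
    have := Nat.mul_le_mul_left (j + 1) (cross_le h hj')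
    calc (j + 1) * Q ^ j * P ^ e = (j + 1) * (Q ^ j * P ^ e) := by ring
      _ ≤ (j + 1) * (P ^ j * Q ^ e) := this
      _ = _ := by ring
  · refine ⟨0, by simp, ?_⟩
    have := Nat.pow_lt_pow_left h (show e ≠ 0 by omega)
    simpa using this

lemma GG_cross {P Q e : ℕ} (h : P < Q) : GG Q (e + 1) * P ^ e ≤ GG P (e + 1) * Q ^ e := by
  unfold GG
  rw [Finset.sum_mul, Finset.sum_mul]
  apply Finset.sum_le_sum
  intro j hj
  have hj' : j ≤ e := by have := Finset.mem_range.1 hj; omega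
  exact cross_le h hj'

lemma EQ_mul {s P e : ℕ} (hP : P.Prime) (hPs : ¬ P ∣ s) (h : EQ (P ^ e * s)) :
    TT P (e + 1) * FF s + GG P (e + 1) * sigma 1 s = 2 * (P ^ e * s * ((e + 1) * s.divisors.card)) := by
  have hc : Nat.Coprime (P ^ e) s := ((Nat.Prime.coprime_iff_not_dvd hP).2 hPs).pow_left e
  unfold EQ at h
  rw [FF_mult.map_mul_of_coprime hc, isMultiplicative_sigma.map_mul_of_coprime hc,
    FF_prime_pow hP, sigma_prime_pow hP, hc.card_divisors_mul, Nat.divisors_prime_pow hP,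
    Finset.card_map, Finset.card_range] at h
  exact h

lemma not_two {s P Q e : ℕ} (hs : 0 < s) (hP : P.Prime) (hQ : Q.Prime) (hPs : ¬ P ∣ s)
    (hQs : ¬ Q ∣ s) (he : 1 ≤ e) (h1 : EQ (P ^ e * s)) (h2 : EQ (Q ^ e * s)) (h : P < Q) : False := by
  have e1 := EQ_mul hP hPs h1
  have e2 := EQ_mul hQ hQs h2
  have hF : 0 < FF s := by
    rw [FF_apply]
    apply Finset.sum_pos
    · intro d hd
      have hd0 := Nat.pos_of_mem_divisors hd
      exact Nat.mul_pos hd0 (Finset.card_pos.2 ⟨1, by simp [hd0.ne']⟩)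
    · exact ⟨1, by simp [hs.ne']⟩
  have a1 := Nat.mul_lt_mul_of_pos_right (TT_cross h he) hF
  have a2 := Nat.mul_le_mul_right (sigma 1 s) (GG_cross (e := e) h)
  have b1 : (TT P (e + 1) * FF s + GG P (e + 1) * sigma 1 s) * Q ^ e =
      (TT Q (e + 1) * FF s + GG Q (e + 1) * sigma 1 s) * P ^ e := by
    rw [e1, e2]; ring
  have c1 : (TT P (e + 1) * FF s + GG P (e + 1) * sigma 1 s) * Q ^ e =
      TT P (e + 1) * Q ^ e * FF s + GG P (e + 1) * Q ^ e * sigma 1 s := by ring
  have c2 : (TT Q (e + 1) * FF s + GG Q (e + 1) * sigma 1 s) * P ^ e =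
      TT Q (e + 1) * P ^ e * FF s + GG Q (e + 1) * P ^ e * sigma 1 s := by ring
  rw [c1, c2] at b1
  omega

/-- at most one prime `P` with `P^e s` a solution -/
theorem uniq {s P Q e : ℕ} (hs : 0 < s) (hP : P.Prime) (hQ : Q.Prime) (hPs : ¬ P ∣ s)
    (hQs : ¬ Q ∣ s) (he : 1 ≤ e) (h1 : EQ (P ^ e * s)) (h2 : EQ (Q ^ e * s)) : P = Q := by
  rcases lt_trichotomy P Q with h | h | h
  · exact (not_two hs hP hQ hPs hQs he h1 h2 h).elim
  · exact h
  · exact (not_two hs hQ hP hQs hPs he h2 h1 h).elim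

/-- the largest prime factor -/
def lp (n : ℕ) : ℕ := n.primeFactors.sup id

lemma lp_mem {n : ℕ} (hn : 2 ≤ n) : lp n ∈ n.primeFactors := by
  have hne : n.primeFactors.Nonempty := Nat.nonempty_primeFactors.2 (by omega)
  obtain ⟨p, hp, he⟩ := Finset.exists_mem_eq_sup _ hne id
  unfold lp
  rw [he]
  exact hp

lemma le_lp {n p : ℕ} (hp : p ∈ n.primeFactors) : p ≤ lp n := Finset.le_sup (f := id) hp

lemma lp_div {n : ℕ} (hn : 2 ≤ n) (h : lp n ^ 2 ∣ n) : lp (n / lp n) = lp n := by
  have hm := lp_mem hn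
  have hp := Nat.prime_of_mem_primeFactors hm
  obtain ⟨k, hk⟩ := h
  have e1 : n / lp n = lp n * k :=
    Nat.div_eq_of_eq_mul_right hp.pos (by rw [← mul_assoc, ← pow_two]; exact hk)
  have hk0 : k ≠ 0 := by rintro rfl; omega
  have e2 : (n / lp n).primeFactors = n.primeFactors := by
    rw [e1]
    conv_rhs => rw [hk]
    rw [Nat.primeFactors_mul hp.ne_zero hk0, Nat.primeFactors_mul (pow_ne_zero 2 hp.ne_zero) hk0,
      Nat.primeFactors_pow _ (by norm_num)]
  have e3 : ∀ m : ℕ, lp m = m.primeFactors.sup id := fun _ => rfl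
  rw [e3 (n / lp n), e2, ← e3]

theorem card_le (S M : Finset ℕ) (hS : ∀ n ∈ S, 2 ≤ n ∧ EQ n ∧ n / lp n ∈ M) : S.card ≤ 2 * M.card := by
  have hmul : ∀ n : ℕ, 2 ≤ n → lp n * (n / lp n) = n := fun n hn =>
    Nat.mul_div_cancel' (Nat.dvd_of_mem_primeFactors (lp_mem hn))
  have h1 : (S.filter (fun n => lp n ^ 2 ∣ n)).card ≤ M.card := by
    apply Finset.card_le_card_of_injOn (fun n => n / lp n)
    · intro n hn
      rw [Finset.coe_filter] at hn
      exact (hS n hn.1).2.2
    · intro n hn n' hn' he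
      rw [Finset.coe_filter] at hn hn'
      have a := (hS n hn.1).1
      have a' := (hS n' hn'.1).1
      have b := lp_div a hn.2
      have b' := lp_div a' hn'.2
      simp only at he
      rw [he] at b
      rw [← hmul n a, ← hmul n' a', he, ← b, b']
  have h2 : (S.filter (fun n => ¬ lp n ^ 2 ∣ n)).card ≤ M.card := by
    apply Finset.card_le_card_of_injOn (fun n => n / lp n)
    · intro n hn
      rw [Finset.coe_filter] at hn
      exact (hS n hn.1).2.2
    · intro n hn n' hn' he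
      rw [Finset.coe_filter] at hn hn'
      have a := (hS n hn.1).1
      have a' := (hS n' hn'.1).1
      simp only at he
      have key : ∀ m : ℕ, 2 ≤ m → ¬ lp m ^ 2 ∣ m → ¬ lp m ∣ m / lp m := by
        intro m hm h3 h4
        apply h3
        rw [pow_two]
        conv_rhs => rw [← hmul m hm]
        exact Nat.mul_dvd_mul_left _ h4
      have c := key n a hn.2
      have c' := key n' a' hn'.2
      have d : EQ (lp n ^ 1 * (n / lp n)) := by rw [pow_one, hmul n a]; exact (hS n hn.1).2.1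
      have d' : EQ (lp n' ^ 1 * (n / lp n)) := by rw [pow_one, he, hmul n' a']; exact (hS n' hn'.1).2.1
      rw [← he] at c'
      have hpos : 0 < n / lp n := by
        have := hmul n a
        rcases Nat.eq_zero_or_pos (n / lp n) with h0 | h0
        · rw [h0, mul_zero] at this; omega
        · exact h0
      have e1 := uniq hpos (Nat.prime_of_mem_primeFactors (lp_mem a))
        (Nat.prime_of_mem_primeFactors (lp_mem a')) c c' le_rfl d d'
      rw [← hmul n a, ← hmul n' a', ← he, e1]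
  have h3 := Finset.card_filter_add_card_filter_not (s := S) (fun n => lp n ^ 2 ∣ n)
  omega

end Pool.Agent.SPC
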