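import Pool.Agent.SPC.Rank
import Pool.Agent.SPC.Uniq

set_option autoImplicit false

/-!
# The number of solutions up to `x`
-/

open Finset Filter

namespace Pool.Agent.SPC

lemma RR_nonneg (t : ℝ) : 0 ≤ RR t := Real.sqrt_nonneg _

lemma lp_div_mul {n : ℕ} (hn : 2 ≤ n) : lp n * (n / lp n) = n :=
  Nat.mul_div_cancel' (Nat.dvd_of_mem_primeFactors (lp_mem hn))

lemma div_pos {n : ℕ} (hn : 2 ≤ n) : 0 < n / lp n := by
  have := lp_div_mul hn
  rcases Nat.eq_zero_or_pos (n / lp n) with h0 | h0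
  · rw [h0, mul_zero] at this; omega
  · exact h0

lemma div_le_exp {n x : ℕ} {t a : ℝ} (hn : 2 ≤ n) (hnx : n ≤ x) (hx : (x:ℝ) = Real.exp t)
    (ha : Real.exp a ≤ lp n) : ((n / lp n : ℕ) : ℝ) ≤ Real.exp (t - a) := by
  have h1 : (lp n : ℝ) * ((n / lp n : ℕ) : ℝ) = n := by exact_mod_cast lp_div_mul hn
  have h2 : (n:ℝ) ≤ Real.exp t := by rw [← hx]; exact_mod_cast hnx
  rw [Real.exp_sub, le_div_iff₀ (Real.exp_pos a)]
  have h3 : (0:ℝ) ≤ ((n / lp n : ℕ) : ℝ) := Nat.cast_nonneg _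
  nlinarith

open Classical in
/-- the solutions whose largest prime factor lies in `[exp a, exp b)` -/
lemma card_range (x : ℕ) (t a b : ℝ) (hx : (x:ℝ) = Real.exp t) (S : Finset ℕ)
    (hS : ∀ n ∈ S, 2 ≤ n ∧ n ≤ x ∧ EQ n ∧ Real.exp a ≤ lp n ∧ (lp n : ℝ) < Real.exp b) :
    S.card ≤ 2 * (Nat.smoothNumbersUpTo ⌊Real.exp (t - a)⌋₊ ⌈Real.exp b⌉₊).card := by
  apply card_le
  intro n hn
  obtain ⟨h2, hnx, hE, ha, hb⟩ := hS n hn
  refine ⟨h2, hE, ?_⟩
  rw [Nat.mem_smoothNumbersUpTo]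
  refine ⟨Nat.le_floor (div_le_exp h2 hnx hx ha), (div_pos h2).ne', ?_⟩
  intro p hp
  have hp1 : p ∈ n.primeFactors := by
    have hq := Nat.prime_of_mem_primeFactorsList hp
    have hd := Nat.dvd_of_mem_primeFactorsList hp
    exact Nat.mem_primeFactors.2 ⟨hq, hd.trans (Nat.div_dvd_of_dvd (Nat.dvd_of_mem_primeFactors (lp_mem h2))),
      by omega⟩
  have h3 : (p:ℝ) < Real.exp b := lt_of_le_of_lt (by exact_mod_cast le_lp hp1) hb
  exact_mod_cast h3.trans_le (Nat.le_ceil _)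

open Classical in
/-- the solutions with a large prime factor -/
lemma card_large (x : ℕ) (t a : ℝ) (hx : (x:ℝ) = Real.exp t) (S : Finset ℕ)
    (hS : ∀ n ∈ S, 2 ≤ n ∧ n ≤ x ∧ EQ n ∧ Real.exp a ≤ lp n) :
    (S.card : ℝ) ≤ 2 * Real.exp (t - a) := by
  have h1 : S.card ≤ 2 * (Finset.Icc 1 ⌊Real.exp (t - a)⌋₊).card := by
    apply card_le
    intro n hn
    obtain ⟨h2, hnx, hE, ha⟩ := hS n hn
    exact ⟨h2, hE, Finset.mem_Icc.2 ⟨div_pos h2, Nat.le_floor (div_le_exp h2 hnx hx ha)⟩⟩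
  rw [Nat.card_Icc, Nat.add_sub_cancel] at h1
  have h2 : (S.card : ℝ) ≤ 2 * (⌊Real.exp (t - a)⌋₊ : ℝ) := by exact_mod_cast h1
  have h3 := Nat.floor_le (Real.exp_pos (t - a)).le
  linarith

lemma RR_large (M : ℝ) : ∀ᶠ t : ℝ in atTop, M ≤ RR t := by
  filter_upwards [eventually_ge_atTop (Real.exp 1), eventually_ge_atTop (M ^ 2)] with t h1 h2
  have ht0 : 0 < t := (Real.exp_pos 1).trans_le h1
  have hl1 : 1 ≤ Real.log t := by
    rw [Real.le_log_iff_exp_le ht0]; exact h1
  unfold RR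
  apply Real.le_sqrt_of_sq_le
  nlinarith

open Classical in
theorem count_nonneg {c : ℝ} (hc0 : 0 ≤ c) (hc : c < Real.sqrt 2) :
    ∀ᶠ t : ℝ in atTop, ∀ x : ℕ, (x:ℝ) = Real.exp t →
      (((Finset.Icc 1 x).filter (fun n => EQ n)).card : ℝ) ≤ Real.exp (t - c * RR t) := by
  have hs2 : Real.sqrt 2 ^ 2 = 2 := Real.sq_sqrt (by norm_num)
  have hs3 : Real.sqrt 2 < 3 / 2 := by
    rw [Real.sqrt_lt' (by norm_num)]; norm_num
  obtain ⟨c₁, hc1, hc1'⟩ := exists_between hc
  obtain ⟨c₂, hc2, hc2'⟩ := exists_between hc1'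
  obtain ⟨h, hh⟩ : ∃ h, h = (c₂ - c₁) / 2 := ⟨_, rfl⟩
  have hh0 : 0 < h := by rw [hh]; linarith
  have hθ : 0 < c₂ ^ 2 / 4 := by
    have : 0 < c₂ := by linarith
    positivity
  have hθ2 : c₂ ^ 2 / 4 < 1 / 2 := by nlinarith
  obtain ⟨K, hK⟩ : ∃ K : ℕ, K = ⌈c₁ / h⌉₊ := ⟨_, rfl⟩
  have hKh : c₁ ≤ K * h := by
    have := Nat.le_ceil (c₁ / h)
    rw [← hK, div_le_iff₀ hh0] at this
    exact this
  have hall : ∀ᶠ t : ℝ in atTop, ∀ i ∈ Finset.range K, ∀ X y : ℕ,
      (X:ℝ) ≤ Real.exp (t - (i * h) * RR t) → (y:ℝ) ≤ Real.exp (((i + 1) * h) * RR t) + 1 →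
      ((Nat.smoothNumbersUpTo X y).card : ℝ) ≤
        Real.exp (t - (i * h + c₂ ^ 2 / 4 / ((i + 1) * h) - h) * RR t) := by
    rw [Filter.eventually_all_finset]
    intro i _
    exact rank_asymp (i * h) ((i + 1) * h) (c₂ ^ 2 / 4) h (by positivity) (by positivity) hθ hθ2 hh0
  filter_upwards [hall, RR_large (Real.log (2 * K + 3) / (c₁ - c)), eventually_ge_atTop (Real.exp 1),
    log_small (c := 1 / 4) (r := 1) (by norm_num) one_pos] with t h1 h2 h3 h4
  intro x hx
  have ht0 : 0 < t := (Real.exp_pos 1).trans_le h3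
  have hR0 := RR_nonneg t
  have hRt : RR t ≤ t / 2 := by
    rw [Real.rpow_one] at h4
    unfold RR
    apply Real.sqrt_le_iff.2
    exact ⟨by positivity, by nlinarith⟩
  obtain ⟨E, hE⟩ : ∃ E, E = Real.exp (t - c₁ * RR t) := ⟨_, rfl⟩
  have hE1 : 1 ≤ E := by
    rw [hE]
    apply Real.one_le_exp
    nlinarith
  -- the pieces
  set S : ℕ → Finset ℕ := fun i => (Finset.Icc 2 x).filter (fun n => EQ n ∧
    Real.exp ((i * h) * RR t) ≤ lp n ∧ (lp n : ℝ) < Real.exp (((i + 1) * h) * RR t)) with hSdef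
  set SL : Finset ℕ := (Finset.Icc 2 x).filter (fun n => EQ n ∧
    Real.exp ((K * h) * RR t) ≤ lp n) with hSL
  have hSi : ∀ i ∈ Finset.range K, ((S i).card : ℝ) ≤ 2 * E := by
    intro i hi
    have h5 := card_range x t ((i * h) * RR t) (((i + 1) * h) * RR t) hx (S i) (by
      intro n hn
      rw [hSdef, Finset.mem_filter, Finset.mem_Icc] at hn
      exact ⟨hn.1.1, hn.1.2, hn.2.1, hn.2.2.1, hn.2.2.2⟩)
    have h6 := h1 i hi ⌊Real.exp (t - (i * h) * RR t)⌋₊ ⌈Real.exp (((i + 1) * h) * RR t)⌉₊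
      (Nat.floor_le (Real.exp_pos _).le) (Nat.ceil_lt_add_one (Real.exp_pos _).le).le
    have h7 : c₁ ≤ i * h + c₂ ^ 2 / 4 / ((i + 1) * h) - h := by
      have hb : 0 < ((i:ℝ) + 1) * h := by positivity
      have : c₂ ≤ ((i:ℝ) + 1) * h + c₂ ^ 2 / 4 / ((i + 1) * h) := by
        have e : ((i:ℝ) + 1) * h + c₂ ^ 2 / 4 / ((i + 1) * h) - c₂ =
            (((i:ℝ) + 1) * h - c₂ / 2) ^ 2 / (((i:ℝ) + 1) * h) := by
          field_simp; ring
        have e2 : 0 ≤ (((i:ℝ) + 1) * h - c₂ / 2) ^ 2 / (((i:ℝ) + 1) * h) := by positivity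
        linarith
      rw [hh] at this ⊢
      linarith
    have h8 : Real.exp (t - (i * h + c₂ ^ 2 / 4 / ((i + 1) * h) - h) * RR t) ≤ E := by
      rw [hE]
      apply Real.exp_le_exp.2
      nlinarith
    have h9 : ((S i).card : ℝ) ≤
        2 * ((Nat.smoothNumbersUpTo ⌊Real.exp (t - (i * h) * RR t)⌋₊ ⌈Real.exp (((i + 1) * h) * RR t)⌉₊).card : ℝ) := by
      exact_mod_cast h5
    linarith
  have hSLc : (SL.card : ℝ) ≤ 2 * E := by
    have h5 := card_large x t ((K * h) * RR t) hx SL (by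
      intro n hn
      rw [hSL, Finset.mem_filter, Finset.mem_Icc] at hn
      exact ⟨hn.1.1, hn.1.2, hn.2.1, hn.2.2⟩)
    have h6 : Real.exp (t - (K * h) * RR t) ≤ E := by
      rw [hE]
      apply Real.exp_le_exp.2
      nlinarith
    linarith
  have hsub : (Finset.Icc 1 x).filter (fun n => EQ n) ⊆
      ({1} ∪ (Finset.range K).biUnion S) ∪ SL := by
    intro n hn
    rw [Finset.mem_filter, Finset.mem_Icc] at hn
    obtain ⟨⟨hn1, hnx⟩, hEn⟩ := hn
    rcases Nat.lt_or_ge n 2 with hn2 | hn2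
    · have : n = 1 := by omega
      simp [this]
    · by_cases hbig : Real.exp ((K * h) * RR t) ≤ lp n
      · apply Finset.mem_union_right
        rw [hSL, Finset.mem_filter, Finset.mem_Icc]
        exact ⟨⟨hn2, hnx⟩, hEn, hbig⟩
      · apply Finset.mem_union_left
        apply Finset.mem_union_right
        rw [Finset.mem_biUnion]
        -- the first `i` with `lp n < exp ((i+1) h R)`
        have hex : ∃ i : ℕ, (lp n : ℝ) < Real.exp (((i + 1) * h) * RR t) := by
          refine ⟨K, lt_of_lt_of_le (lt_of_not_ge hbig) ?_⟩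
          apply Real.exp_le_exp.2
          apply mul_le_mul_of_nonneg_right _ hR0
          nlinarith
        refine ⟨Nat.find hex, ?_, ?_⟩
        · rw [Finset.mem_range]
          by_contra hcon
          push Not at hcon
          rcases Nat.eq_zero_or_pos K with hK0 | hK0
          · apply hbig
            rw [hK0]
            simp only [Nat.cast_zero, zero_mul, Real.exp_zero]
            exact_mod_cast (Nat.prime_of_mem_primeFactors (lp_mem hn2)).one_lt.le
          · have := Nat.find_min hex (m := K - 1) (by omega)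
            apply this
            have e : ((K - 1 : ℕ) : ℝ) + 1 = K := by
              rw [Nat.cast_sub (by omega)]; push_cast; ring
            rw [e]
            exact lt_of_not_ge hbig
        · rw [hSdef, Finset.mem_filter, Finset.mem_Icc]
          refine ⟨⟨hn2, hnx⟩, hEn, ?_, Nat.find_spec hex⟩
          rcases Nat.eq_zero_or_pos (Nat.find hex) with h0 | h0
          · rw [h0]
            simp only [Nat.cast_zero, zero_mul, Real.exp_zero]
            exact_mod_cast (Nat.prime_of_mem_primeFactors (lp_mem hn2)).one_lt.le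
          · have := Nat.find_min hex (m := Nat.find hex - 1) (by omega)
            have e : ((Nat.find hex - 1 : ℕ) : ℝ) + 1 = (Nat.find hex : ℝ) := by
              rw [Nat.cast_sub (by omega)]; push_cast; ring
            rw [e] at this
            exact le_of_not_gt this
  have hcard := Finset.card_le_card hsub
  have hc3 : ((({1} ∪ (Finset.range K).biUnion S) ∪ SL).card : ℝ) ≤ 1 + K * (2 * E) + 2 * E := by
    have a1 := Finset.card_union_le ({1} ∪ (Finset.range K).biUnion S) SL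
    have a2 := Finset.card_union_le {1} ((Finset.range K).biUnion S)
    have a3 : (((Finset.range K).biUnion S).card : ℝ) ≤ K * (2 * E) := by
      calc (((Finset.range K).biUnion S).card : ℝ) ≤ ((∑ i ∈ Finset.range K, (S i).card : ℕ) : ℝ) := by
            exact_mod_cast Finset.card_biUnion_le
        _ = ∑ i ∈ Finset.range K, ((S i).card : ℝ) := by push_cast; rfl
        _ ≤ ∑ _i ∈ Finset.range K, (2 * E) := Finset.sum_le_sum hSi
        _ = K * (2 * E) := by rw [Finset.sum_const, Finset.card_range, nsmul_eq_mul]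
    have b1 : ((({1} ∪ (Finset.range K).biUnion S) ∪ SL).card : ℝ) ≤
        (({1} ∪ (Finset.range K).biUnion S).card : ℝ) + SL.card := by exact_mod_cast a1
    have b2 : (({1} ∪ (Finset.range K).biUnion S).card : ℝ) ≤ 1 + (((Finset.range K).biUnion S).card : ℝ) := by
      rw [Finset.card_singleton] at a2
      exact_mod_cast a2
    linarith
  have hc4 : (((Finset.Icc 1 x).filter (fun n => EQ n)).card : ℝ) ≤ (2 * K + 3) * E := by
    have : (((Finset.Icc 1 x).filter (fun n => EQ n)).card : ℝ) ≤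
        ((({1} ∪ (Finset.range K).biUnion S) ∪ SL).card : ℝ) := by exact_mod_cast hcard
    nlinarith
  refine hc4.trans ?_
  have h10 : Real.log (2 * K + 3) ≤ (c₁ - c) * RR t := by
    rw [div_le_iff₀ (by linarith)] at h2
    linarith
  have h11 : (2 * (K:ℝ) + 3) = Real.exp (Real.log (2 * K + 3)) := (Real.exp_log (by positivity)).symm
  rw [h11, hE, ← Real.exp_add]
  apply Real.exp_le_exp.2
  linarith

open Classical in
/-- the number of solutions up to `x` -/
theorem count {c : ℝ} (hc : c < Real.sqrt 2) : ∃ x₀ : ℕ, ∀ x : ℕ, x₀ ≤ x →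
    (((Finset.Icc 1 x).filter (fun n => EQ n)).card : ℝ) ≤
      x * Real.exp (-c * Real.sqrt (Real.log x * Real.log (Real.log x))) := by
  have h1 := count_nonneg (c := max c 0) (le_max_right _ _) (max_lt hc (by positivity))
  have h2 : ∀ᶠ x : ℕ in atTop, ∀ y : ℕ, (y:ℝ) = Real.exp (Real.log x) →
      (((Finset.Icc 1 y).filter (fun n => EQ n)).card : ℝ) ≤ Real.exp (Real.log x - max c 0 * RR (Real.log x)) :=
    (Real.tendsto_log_atTop.comp tendsto_natCast_atTop_atTop).eventually h1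
  obtain ⟨x₁, hx1⟩ := eventually_atTop.1 h2
  refine ⟨max x₁ 1, fun x hx => ?_⟩
  have hx0 : (0:ℝ) < x := by
    have : 1 ≤ x := (le_max_right _ _).trans hx
    exact_mod_cast this
  refine (hx1 x ((le_max_left _ _).trans hx) x (Real.exp_log hx0).symm).trans ?_
  rw [sub_eq_add_neg, Real.exp_add, Real.exp_log hx0]
  apply mul_le_mul_of_nonneg_left _ hx0.le
  apply Real.exp_le_exp.2
  have h3 := RR_nonneg (Real.log x)
  have h4 : c * RR (Real.log x) ≤ max c 0 * RR (Real.log x) :=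
    mul_le_mul_of_nonneg_right (le_max_left _ _) h3
  have h5 : Real.sqrt (Real.log x * Real.log (Real.log x)) = RR (Real.log x) := rfl
  rw [h5]
  linarith

end Pool.Agent.SPC
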