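import Pool.Agent.PnPoly.NC.Mert

set_option autoImplicit false

/-!
# Rankin's bound for the number of smooth numbers
-/

open Finset
open Pool.Agent.HL26

namespace Pool.Agent.SPC

/-- `n ↦ n^(-σ)` -/
noncomputable def ff (σ : ℝ) : ℕ →* ℝ where
  toFun n := (n:ℝ) ^ (-σ)
  map_one' := by simp
  map_mul' m n := by
    push_cast
    exact Real.mul_rpow (Nat.cast_nonneg m) (Nat.cast_nonneg n)

lemma ff_apply (σ : ℝ) (n : ℕ) : ff σ n = (n:ℝ) ^ (-σ) := rfl

lemma ff_nonneg (σ : ℝ) (n : ℕ) : 0 ≤ ff σ n := by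
  rw [ff_apply]; exact Real.rpow_nonneg (Nat.cast_nonneg n) _

lemma ff_lt_one {σ : ℝ} (hσ : 0 < σ) {p : ℕ} (hp : p.Prime) : ff σ p < 1 := by
  rw [ff_apply]
  have : (1:ℝ) < p := by exact_mod_cast hp.one_lt
  exact Real.rpow_lt_one_of_one_lt_of_neg this (by linarith)

lemma rankin {σ : ℝ} (hσ : 0 < σ) (x y : ℕ) (hx : 1 ≤ x) :
    ((Nat.smoothNumbersUpTo x y).card : ℝ) ≤ (x:ℝ) ^ σ * ∏ p ∈ y.primesBelow, (1 - ff σ p)⁻¹ := by
  obtain ⟨-, h⟩ := EulerProduct.summable_and_hasSum_smoothNumbers_prod_primesBelow_geometric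
    (f := ff σ) (fun {p} hp => by
      rw [Real.norm_of_nonneg (ff_nonneg σ p)]; exact ff_lt_one hσ hp) y
  have h' : HasSum ((y.smoothNumbers).indicator (fun n => ff σ n)) (∏ p ∈ y.primesBelow, (1 - ff σ p)⁻¹) :=
    (hasSum_subtype_iff_indicator (f := fun n => ff σ n) (s := y.smoothNumbers)).1 h
  have h1 := sum_le_hasSum (Nat.smoothNumbersUpTo x y)
    (fun i _ => Set.indicator_nonneg (fun n _ => ff_nonneg σ n) i) h'
  have hx0 : (0:ℝ) < x := by exact_mod_cast (show 0 < x by omega)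
  calc ((Nat.smoothNumbersUpTo x y).card : ℝ) = ∑ _n ∈ Nat.smoothNumbersUpTo x y, (1:ℝ) := by simp
    _ ≤ ∑ n ∈ Nat.smoothNumbersUpTo x y, (x:ℝ) ^ σ * (y.smoothNumbers).indicator (fun n => ff σ n) n := by
        apply Finset.sum_le_sum
        intro n hn
        obtain ⟨h2, h3⟩ := Nat.mem_smoothNumbersUpTo.1 hn
        rw [Set.indicator_of_mem h3, ff_apply, Real.rpow_neg (Nat.cast_nonneg n)]
        have hn0 : (0:ℝ) < n := by
          have := Nat.ne_zero_of_mem_smoothNumbers h3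
          exact_mod_cast Nat.pos_of_ne_zero this
        rw [← div_eq_mul_inv, le_div_iff₀ (Real.rpow_pos_of_pos hn0 _), one_mul]
        exact Real.rpow_le_rpow hn0.le (by exact_mod_cast h2) hσ.le
    _ = (x:ℝ) ^ σ * ∑ n ∈ Nat.smoothNumbersUpTo x y, (y.smoothNumbers).indicator (fun n => ff σ n) n := by
        rw [Finset.mul_sum]
    _ ≤ _ := mul_le_mul_of_nonneg_left h1 (Real.rpow_nonneg hx0.le _)

lemma factor_le {u a : ℝ} (hu : 0 ≤ u) (hu2 : u ≤ 1 / 2) (ha : a ≤ 165 / 100 * u) :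
    (1 - a)⁻¹ ≤ ((1 - u)⁻¹) ^ 4 := by
  have h1 : (1 - u) ^ 4 ≤ 1 - a := by
    have e : (1 - u) ^ 4 = 1 - u * (4 - 6 * u + 4 * u ^ 2 - u ^ 3) := by ring
    have h2 : 165 / 100 ≤ 4 - 6 * u + 4 * u ^ 2 - u ^ 3 := by nlinarith [sq_nonneg u, mul_nonneg hu (sq_nonneg u)]
    have h3 : u * (165 / 100) ≤ u * (4 - 6 * u + 4 * u ^ 2 - u ^ 3) := mul_le_mul_of_nonneg_left h2 hu
    rw [e]; linarith
  rw [inv_pow]
  exact inv_anti₀ (by have : 0 < 1 - u := by linarith
                      positivity) h1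

theorem psi_le : ∃ C : ℝ, 0 < C ∧ ∀ x : ℕ, 3 ≤ x → ∀ y : ℕ, 8 ≤ y →
    ((Nat.smoothNumbersUpTo x y).card : ℝ) ≤
      C * Real.log y ^ 4 * x * Real.exp (-(Real.log x / (2 * Real.log y))) := by
  refine ⟨Real.exp 5 ^ 4, by positivity, fun x hx y hy => ?_⟩
  have hy8 : (8:ℝ) ≤ y := by exact_mod_cast hy
  have hx0 : (0:ℝ) < x := by exact_mod_cast (show 0 < x by omega)
  have hl : 1 < Real.log y := by
    rw [Real.lt_log_iff_exp_lt (by linarith)]
    linarith [Real.exp_one_lt_d9]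
  set η : ℝ := 1 / (2 * Real.log y) with hη
  have hη0 : 0 < η := by positivity
  have hη1 : η < 1 := by
    rw [hη, div_lt_one (by positivity)]; linarith
  have h1 := rankin (σ := 1 - η) (by linarith) x y (by omega)
  have h2 : (x:ℝ) ^ (1 - η) = x * Real.exp (-(Real.log x / (2 * Real.log y))) := by
    rw [Real.rpow_sub hx0, Real.rpow_one, Real.rpow_def_of_pos hx0, div_eq_mul_inv, ← Real.exp_neg]
    congr 2
    rw [hη]; ring
  have h3 : ∏ p ∈ y.primesBelow, (1 - ff (1 - η) p)⁻¹ ≤ (∏ p ∈ PPy y, (1 - 1 / (p:ℝ))⁻¹) ^ 4 := by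
    rw [← Finset.prod_pow]
    have hsub : y.primesBelow ⊆ PPy y := by
      intro p hp
      rw [Nat.mem_primesBelow] at hp
      unfold PPy
      rw [Finset.mem_filter, Finset.mem_range]
      exact ⟨by omega, hp.2⟩
    have hone : ∀ p ∈ PPy y, 1 ≤ ((1 - 1 / (p:ℝ))⁻¹) ^ 4 := by
      intro p hp
      have hpp := PPy_prime y p hp
      have hp2 : (2:ℝ) ≤ p := by exact_mod_cast hpp.two_le
      have h4 : 0 < 1 - 1 / (p:ℝ) := by
        have : 1 / (p:ℝ) ≤ 1 / 2 := one_div_le_one_div_of_le (by norm_num) hp2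
        linarith
      have h5 : 1 ≤ (1 - 1 / (p:ℝ))⁻¹ := by
        rw [one_le_inv₀ h4]
        have : 0 ≤ 1 / (p:ℝ) := by positivity
        linarith
      exact one_le_pow₀ h5
    calc ∏ p ∈ y.primesBelow, (1 - ff (1 - η) p)⁻¹ ≤ ∏ p ∈ y.primesBelow, ((1 - 1 / (p:ℝ))⁻¹) ^ 4 := by
          apply Finset.prod_le_prod
          · intro p hp
            rw [Nat.mem_primesBelow] at hp
            have := ff_lt_one (σ := 1 - η) (by linarith) hp.2
            exact (inv_pos.2 (by linarith)).le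
          · intro p hp
            rw [Nat.mem_primesBelow] at hp
            have hp2 : (2:ℝ) ≤ p := by exact_mod_cast hp.2.two_le
            have hp0 : (0:ℝ) < p := by linarith
            have hpy : (p:ℝ) ≤ y := by exact_mod_cast hp.1.le
            apply factor_le (by positivity) (one_div_le_one_div_of_le (by norm_num) hp2)
            rw [ff_apply, show -(1 - η) = η - 1 by ring, Real.rpow_sub hp0, Real.rpow_one]
            have h6 : (p:ℝ) ^ η ≤ 165 / 100 := by
              calc (p:ℝ) ^ η ≤ (y:ℝ) ^ η := Real.rpow_le_rpow hp0.le hpy hη0.le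
                _ = Real.exp (1 / 2) := by
                    rw [Real.rpow_def_of_pos (by linarith)]
                    congr 1
                    rw [hη]; field_simp
                _ ≤ 165 / 100 := by
                    have h7 : Real.exp (1 / 2) ^ 2 = Real.exp 1 := by
                      rw [← Real.exp_nat_mul]; norm_num
                    have h8 := Real.exp_one_lt_d9
                    have h9 := Real.exp_pos (1 / 2)
                    nlinarith
            rw [div_le_iff₀ hp0]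
            field_simp
            linarith
      _ ≤ ∏ p ∈ PPy y, ((1 - 1 / (p:ℝ))⁻¹) ^ 4 := by
          rw [← Finset.prod_sdiff hsub]
          have h7 : 1 ≤ ∏ p ∈ PPy y \ y.primesBelow, ((1 - 1 / (p:ℝ))⁻¹) ^ 4 := by
            calc (1:ℝ) = ∏ _p ∈ PPy y \ y.primesBelow, (1:ℝ) := by simp
              _ ≤ _ := Finset.prod_le_prod (fun _ _ => zero_le_one)
                  (fun p hp => hone p (Finset.mem_sdiff.1 hp).1)
          have h8 : 0 ≤ ∏ p ∈ y.primesBelow, ((1 - 1 / (p:ℝ))⁻¹) ^ 4 :=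
            Finset.prod_nonneg (fun p hp => zero_le_one.trans (hone p (hsub hp)))
          exact le_mul_of_one_le_left h8 h7
  have h4 := Pool.Agent.PnPoly.NC.prod_fac_le y (by omega)
  have h5 : 0 ≤ ∏ p ∈ PPy y, (1 - 1 / (p:ℝ))⁻¹ := by
    apply Finset.prod_nonneg
    intro p hp
    have hpp := PPy_prime y p hp
    exact (inv_pos.mpr (one_sub_inv_pos p hpp)).le
  have h6 : (∏ p ∈ PPy y, (1 - 1 / (p:ℝ))⁻¹) ^ 4 ≤ (Real.exp 5 * Real.log y) ^ 4 :=
    pow_le_pow_left₀ h5 h4 4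
  calc ((Nat.smoothNumbersUpTo x y).card : ℝ) ≤ (x:ℝ) ^ (1 - η) * ∏ p ∈ y.primesBelow, (1 - ff (1 - η) p)⁻¹ := h1
    _ ≤ (x:ℝ) ^ (1 - η) * (Real.exp 5 * Real.log y) ^ 4 :=
        mul_le_mul_of_nonneg_left (h3.trans h6) (Real.rpow_nonneg hx0.le _)
    _ = _ := by rw [h2]; ring

end Pool.Agent.SPC
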