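import Pool.Agent.SPC.Psi

set_option autoImplicit false

/-!
# Smooth numbers below `exp (b sqrt (log x log log x))`
-/

open Finset Filter
open Pool.Agent.HL26

namespace Pool.Agent.SPC

lemma ff_le {η : ℝ} (hη : η ≤ 1 / 4) {p : ℕ} (hp : 2 ≤ p) : ff (1 - η) p ≤ 3 / 5 := by
  rw [ff_apply]
  have hp2 : (2:ℝ) ≤ p := by exact_mod_cast hp
  have h1 : (p:ℝ) ^ (-(1 - η)) ≤ (p:ℝ) ^ (-(3 / 4) : ℝ) :=
    Real.rpow_le_rpow_of_exponent_le (by linarith) (by linarith)
  have h2 : (p:ℝ) ^ (-(3 / 4) : ℝ) ≤ (2:ℝ) ^ (-(3 / 4) : ℝ) :=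
    Real.rpow_le_rpow_of_nonpos (by norm_num) hp2 (by norm_num)
  have h3 : (2:ℝ) ^ (-(3 / 4) : ℝ) ≤ 3 / 5 := by
    rw [← pow_le_pow_iff_left₀ (by positivity) (by norm_num) (show 4 ≠ 0 by norm_num),
      ← Real.rpow_natCast, ← Real.rpow_mul (by norm_num),
      show (-(3 / 4) : ℝ) * (4 : ℕ) = -(3 : ℕ) by norm_num, Real.rpow_neg (by norm_num),
      Real.rpow_natCast]
    norm_num
  linarith

lemma prod_le {η W : ℝ} (hη : η ≤ 1 / 4) (y : ℕ)
    (hW : ∀ p : ℕ, p.Prime → p < y → (p:ℝ) ^ η ≤ W) (hW0 : 0 ≤ W) :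
    ∏ p ∈ y.primesBelow, (1 - ff (1 - η) p)⁻¹ ≤
      Real.exp (5 / 2 * W * (Real.log (Real.log (y + 2)) + 4)) := by
  have h1 : ∏ p ∈ y.primesBelow, (1 - ff (1 - η) p)⁻¹ ≤ ∏ p ∈ y.primesBelow, Real.exp (5 / 2 * W * (1 / (p:ℝ))) := by
    apply Finset.prod_le_prod
    · intro p hp
      rw [Nat.mem_primesBelow] at hp
      have := ff_le hη hp.2.two_le
      exact (inv_pos.2 (by linarith)).le
    · intro p hp
      rw [Nat.mem_primesBelow] at hp
      have h2 := ff_le hη hp.2.two_le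
      have h3 := ff_nonneg (1 - η) p
      have hp0 : (0:ℝ) < p := by exact_mod_cast hp.2.pos
      have h4 : ff (1 - η) p ≤ W * (1 / (p:ℝ)) := by
        rw [ff_apply, show -(1 - η) = η - 1 by ring, Real.rpow_sub hp0, Real.rpow_one, mul_one_div]
        exact div_le_div_of_nonneg_right (hW p hp.2 hp.1) hp0.le
      have h5 : (1 - ff (1 - η) p)⁻¹ ≤ 1 + 5 / 2 * ff (1 - η) p := by
        rw [inv_le_iff_one_le_mul₀ (by linarith)]
        nlinarith
      have h6 := Real.add_one_le_exp (5 / 2 * ff (1 - η) p)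
      have h7 : Real.exp (5 / 2 * ff (1 - η) p) ≤ Real.exp (5 / 2 * W * (1 / (p:ℝ))) := by
        apply Real.exp_le_exp.2; linarith
      linarith
  refine h1.trans ?_
  rw [← Real.exp_sum, ← Finset.mul_sum]
  apply Real.exp_le_exp.2
  have h2 : ∑ p ∈ y.primesBelow, 1 / (p:ℝ) ≤ ∑ p ∈ PPy (y + 2), 1 / (p:ℝ) := by
    apply Finset.sum_le_sum_of_subset_of_nonneg
    · intro p hp
      rw [Nat.mem_primesBelow] at hp
      unfold PPy
      rw [Finset.mem_filter, Finset.mem_range]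
      exact ⟨by omega, hp.2⟩
    · intro p _ _; positivity
  have h3 := Pool.Agent.PnPoly.NC.sum_inv_le (y + 2) (by omega)
  push_cast at h3
  exact mul_le_mul_of_nonneg_left (h2.trans h3) (by positivity)

lemma psi_gen {η W Z : ℝ} (hη : η ≤ 1 / 4) (X y : ℕ)
    (hW : ∀ p : ℕ, p.Prime → p < y → (p:ℝ) ^ η ≤ W) (hW0 : 0 ≤ W) (hZ : 0 < Z) (hX : (X:ℝ) ≤ Z) :
    ((Nat.smoothNumbersUpTo X y).card : ℝ) ≤
      Z ^ (1 - η) * Real.exp (5 / 2 * W * (Real.log (Real.log (y + 2)) + 4)) := by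
  rcases Nat.eq_zero_or_pos X with rfl | hX0
  · have : Nat.smoothNumbersUpTo 0 y = ∅ := by
      apply Finset.eq_empty_of_forall_notMem
      intro n hn
      obtain ⟨h1, h2⟩ := Nat.mem_smoothNumbersUpTo.1 hn
      have := Nat.ne_zero_of_mem_smoothNumbers h2
      omega
    rw [this, Finset.card_empty, Nat.cast_zero]
    positivity
  · have h1 := rankin (σ := 1 - η) (by linarith) X y hX0
    refine h1.trans ?_
    have h2 := prod_le hη y hW hW0
    have h3 : (X:ℝ) ^ (1 - η) ≤ Z ^ (1 - η) := Real.rpow_le_rpow (Nat.cast_nonneg X) hX (by linarith)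
    have h4 : 0 ≤ ∏ p ∈ y.primesBelow, (1 - ff (1 - η) p)⁻¹ := by
      apply Finset.prod_nonneg
      intro p hp
      rw [Nat.mem_primesBelow] at hp
      have := ff_le hη hp.2.two_le
      exact (inv_pos.2 (by linarith)).le
    exact mul_le_mul h3 h2 h4 (Real.rpow_nonneg hZ.le _)

/-- the scale `sqrt (t log t)`, `t = log x` -/
noncomputable def RR (t : ℝ) : ℝ := Real.sqrt (t * Real.log t)

lemma log_small {c r : ℝ} (hc : 0 < c) (hr : 0 < r) : ∀ᶠ t : ℝ in atTop, Real.log t ≤ c * t ^ r := by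
  have h := (isLittleO_log_rpow_atTop hr).bound hc
  filter_upwards [h, eventually_ge_atTop (1:ℝ)] with t ht h1
  rw [Real.norm_of_nonneg (Real.log_nonneg h1), Real.norm_of_nonneg (by positivity)] at ht
  exact ht

theorem rank_asymp (α β θ ε : ℝ) (hα : 0 ≤ α) (hβ : 0 < β) (hθ : 0 < θ) (hθ2 : θ < 1 / 2) (hε : 0 < ε) :
    ∀ᶠ t : ℝ in atTop, ∀ X y : ℕ, (X:ℝ) ≤ Real.exp (t - α * RR t) → (y:ℝ) ≤ Real.exp (β * RR t) + 1 →
      ((Nat.smoothNumbersUpTo X y).card : ℝ) ≤ Real.exp (t - (α + θ / β - ε) * RR t) := by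
  set K : ℝ := α * (θ / β) + 25 / 2 with hK
  have hK0 : 0 < K := by positivity
  filter_upwards [eventually_ge_atTop (Real.exp 1), eventually_ge_atTop (4:ℝ),
    log_small (c := (β / (4 * θ)) ^ 2) (r := 1) (by positivity) one_pos,
    log_small (c := (1 / (2 * β)) ^ 2) (r := 1) (by positivity) one_pos,
    log_small (c := ε / K) (r := 1 / 2 - θ) (by positivity) (by linarith)] with t h1 h4 e1 e2 e3
  intro X y hX hy
  rw [Real.rpow_one] at e1 e2
  have ht0 : 0 < t := by linarith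
  have hl1 : 1 ≤ Real.log t := by
    rw [Real.le_log_iff_exp_le ht0]; exact h1
  have hl0 : 0 < Real.log t := by linarith
  have hR0 : 0 ≤ RR t := Real.sqrt_nonneg _
  -- `q = sqrt (log t / t)`
  obtain ⟨q, hq⟩ : ∃ q, q = Real.sqrt (Real.log t / t) := ⟨_, rfl⟩
  have hq0 : 0 ≤ q := by rw [hq]; exact Real.sqrt_nonneg _
  have hqR : q * RR t = Real.log t := by
    rw [hq]
    unfold RR
    rw [← Real.sqrt_mul (by positivity), show Real.log t / t * (t * Real.log t) = Real.log t ^ 2 by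
      field_simp, Real.sqrt_sq hl0.le]
  have hqt : q * t = RR t := by
    rw [hq]
    unfold RR
    rw [show t * Real.log t = (Real.log t / t) * t ^ 2 by field_simp,
      Real.sqrt_mul (by positivity), Real.sqrt_sq ht0.le]
  have hq1 : q ≤ β / (4 * θ) := by
    rw [hq]
    apply Real.sqrt_le_iff.2
    exact ⟨by positivity, by rw [div_le_iff₀ ht0]; exact e1⟩
  have hR1 : β * RR t ≤ t / 2 := by
    have : RR t ≤ 1 / (2 * β) * t := by
      unfold RR
      apply Real.sqrt_le_iff.2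
      refine ⟨by positivity, ?_⟩
      rw [mul_pow]
      nlinarith
    calc β * RR t ≤ β * (1 / (2 * β) * t) := mul_le_mul_of_nonneg_left this hβ.le
      _ = t / 2 := by field_simp
  set η : ℝ := θ / β * q with hη
  have hη4 : η ≤ 1 / 4 := by
    calc η ≤ θ / β * (β / (4 * θ)) := mul_le_mul_of_nonneg_left hq1 (by positivity)
      _ = 1 / 4 := by field_simp
  have hη0 : 0 ≤ η := by positivity
  have hW : ∀ p : ℕ, p.Prime → p < y → (p:ℝ) ^ η ≤ t ^ θ := by
    intro p hp hpy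
    have hp1 : (p:ℝ) + 1 ≤ y := by exact_mod_cast hpy
    calc (p:ℝ) ^ η ≤ (Real.exp (β * RR t)) ^ η :=
          Real.rpow_le_rpow (Nat.cast_nonneg p) (by linarith) hη0
      _ = Real.exp (Real.log t * θ) := by
          rw [← Real.exp_mul]
          congr 1
          rw [hη, ← hqR]
          field_simp
      _ = t ^ θ := (Real.rpow_def_of_pos ht0 θ).symm
  have h5 := psi_gen hη4 X y hW (by positivity) (Real.exp_pos _) hX
  refine h5.trans ?_
  rw [← Real.exp_mul, ← Real.exp_add]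
  apply Real.exp_le_exp.2
  have h6 : Real.log (Real.log (y + 2)) ≤ Real.log t := by
    have hy0 : (0:ℝ) ≤ y := Nat.cast_nonneg y
    have h7 : Real.log ((y:ℝ) + 2) ≤ t := by
      rw [Real.log_le_iff_le_exp (by linarith)]
      have h8 : Real.exp (t / 2) + 3 ≤ Real.exp t := by
        have h9 : Real.exp t = Real.exp (t / 2) * Real.exp (t / 2) := by
          rw [← Real.exp_add]; congr 1; ring
        have h10 := Real.add_one_le_exp (t / 2)
        rw [h9]; nlinarith
      have h11 : Real.exp (β * RR t) ≤ Real.exp (t / 2) := Real.exp_le_exp.2 hR1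
      linarith
    apply Real.log_le_log _ h7
    exact Real.log_pos (by linarith)
  have h7 : (t - α * RR t) * (1 - η) = t - (α + θ / β) * RR t + α * (θ / β) * Real.log t := by
    have e4 : η * t = θ / β * RR t := by rw [hη, mul_assoc, hqt]
    have e5 : η * RR t = θ / β * Real.log t := by rw [hη, mul_assoc, hqR]
    calc (t - α * RR t) * (1 - η) = t - α * RR t - η * t + α * (η * RR t) := by ring
      _ = _ := by rw [e4, e5]; ring
  rw [h7]
  have ht1 : 1 ≤ t := by linarith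
  have htθ : 1 ≤ t ^ θ := Real.one_le_rpow ht1 hθ.le
  have h8 : α * (θ / β) * Real.log t + 5 / 2 * t ^ θ * (Real.log (Real.log (y + 2)) + 4) ≤ ε * RR t := by
    have a1 : α * (θ / β) * Real.log t ≤ t ^ θ * (α * (θ / β) * Real.log t) :=
      le_mul_of_one_le_left (by positivity) htθ
    have a2 : 5 / 2 * t ^ θ * (Real.log (Real.log (y + 2)) + 4) ≤ 5 / 2 * t ^ θ * (5 * Real.log t) :=
      mul_le_mul_of_nonneg_left (by linarith) (by positivity)
    have a3 : t ^ θ * (α * (θ / β) * Real.log t) + 5 / 2 * t ^ θ * (5 * Real.log t) = K * (t ^ θ * Real.log t) := by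
      rw [hK]; ring
    have a4 : t ^ θ * Real.log t ≤ ε / K * Real.sqrt t := by
      calc t ^ θ * Real.log t ≤ t ^ θ * (ε / K * t ^ (1 / 2 - θ)) :=
            mul_le_mul_of_nonneg_left e3 (by positivity)
        _ = ε / K * (t ^ θ * t ^ (1 / 2 - θ)) := by ring
        _ = ε / K * Real.sqrt t := by
            rw [← Real.rpow_add ht0, Real.sqrt_eq_rpow]
            congr 2; ring
    have a5 : Real.sqrt t ≤ RR t := by
      unfold RR
      exact Real.sqrt_le_sqrt (by nlinarith)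
    calc α * (θ / β) * Real.log t + 5 / 2 * t ^ θ * (Real.log (Real.log (y + 2)) + 4)
        ≤ K * (t ^ θ * Real.log t) := by linarith
      _ ≤ K * (ε / K * Real.sqrt t) := mul_le_mul_of_nonneg_left a4 hK0.le
      _ = ε * Real.sqrt t := by field_simp
      _ ≤ ε * RR t := mul_le_mul_of_nonneg_left a5 hε.le
  have h9 : t - (α + θ / β - ε) * RR t = t - (α + θ / β) * RR t + ε * RR t := by ring
  rw [h9]
  linarith

end Pool.Agent.SPC
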